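import Pool.Agent.N135.ZO.Mat

/-!
# The modular function takes all values
-/

set_option autoImplicit false

open UpperHalfPlane ModularForm Function Filter Topology Matrix.SpecialLinearGroup

open scoped MatrixGroups ModularForm Manifold

namespace Pool.Agent.L5helper23.MX

open H294ZP

theorem const_of_limit (f : ℍ → ℂ) (A : ℂ) (hI : Inv f) (hH : Hol f)
    (hlim : Tendsto f atImInfty (𝓝 A)) : ∀ τ, f τ = A := by
  have hslash : ∀ γ : SL(2, ℤ), f ∣[(0 : ℤ)] γ = f := by
    intro γ
    ext τ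
    rw [SL_slash_apply]
    simp only [neg_zero, zpow_zero, mul_one]
    have hdet := γ.det_coe
    rw [Matrix.det_fin_two] at hdet
    apply hI (γ 0 0) (γ 0 1) (γ 1 0) (γ 1 1) hdet τ (γ • τ)
    rw [coe_specialLinearGroup_apply]
    have hd : ((γ 1 0 : ℤ) : ℂ) * (τ : ℂ) + ((γ 1 1 : ℤ) : ℂ) ≠ 0 := by
      have := denom_ne_zero γ τ
      simpa [denom] using this
    simp only [eq_intCast, Complex.ofReal_intCast]
    rw [div_mul_cancel₀ _ hd]
  let g : ModularForm 𝒮ℒ 0 :=
    { toFun := f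
      slash_action_eq' := by
        rintro _ ⟨γ, rfl⟩
        exact hslash γ
      holo' := mdifferentiable_iff.2 hH
      bdd_at_cusps' := by
        intro c hc
        rw [OnePoint.isBoundedAt_iff_forall_SL2Z hc]
        intro γ _
        rw [hslash γ]
        exact hlim.isBigO_one ℝ }
  obtain ⟨c, hc⟩ := ModularFormClass.levelOne_weight_zero_const g
  have hf : f = Function.const ℍ c := hc
  have hcA : c = A := by
    rw [hf] at hlim
    exact tendsto_nhds_unique tendsto_const_nhds hlim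
  intro τ
  rw [hf, ← hcA]; rfl

theorem exists_jj (c : ℂ) : ∃ τ : ℍ, jj τ = c := by
  by_contra hcon
  push Not at hcon
  have hne : ∀ τ : ℍ, jj τ - c ≠ 0 := fun τ => sub_ne_zero.2 (hcon τ)
  have h0 : ∀ τ : ℍ, (jj τ - c)⁻¹ = 0 := by
    refine const_of_limit (fun τ => (jj τ - c)⁻¹) 0 ?_ ?_ ?_
    · intro p q r s h τ w hw
      show (jj w - c)⁻¹ = (jj τ - c)⁻¹
      rw [ta1.1 p q r s h τ w hw]
    · have h1 : DifferentiableOn ℂ (fun z => (jj ∘ ofComplex) z - c) {z | 0 < z.im} :=
        ta1.2.sub (differentiableOn_const c)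
      exact h1.inv fun z _ => hne _
    · have h1 := TBproof.lau_limit 1 1 1 jj one_pos ta2
      have h2 := TBproof.tendsto_qq 1 one_pos
      have h3 : Tendsto (fun τ => qq 1 τ * (qq 1 τ ^ 1 * jj τ - c * qq 1 τ)⁻¹) atImInfty
          (𝓝 (0 * (1 - c * 0)⁻¹)) := by
        refine h2.mul ((h1.sub (h2.const_mul c)).inv₀ ?_)
        simp
      rw [zero_mul] at h3
      refine h3.congr fun τ => ?_
      have h4 := TBproof.qq_ne_zero 1 τ
      have h5 := hne τ
      have h6 : qq 1 τ ^ 1 * jj τ - c * qq 1 τ = qq 1 τ * (jj τ - c) := by ring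
      rw [h6, mul_inv, ← mul_assoc, mul_inv_cancel₀ h4, one_mul]
  exact inv_ne_zero (hne I) (h0 I)

end Pool.Agent.L5helper23.MX
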