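import Mathlib

/-!
# Special values, a relation, and the number of classes of the non-special coordinates of a point
-/

set_option autoImplicit false
set_option linter.unusedSectionVars false

namespace Pool.Agent.L5helper23.MX

open MvPolynomial

/-- special values and a relation, in all extension fields of a field, compatible with
specialisations -/
structure SS (F : Type) [Field F] where
  /-- special values -/
  sp : ∀ (K : Type) [Field K] [Algebra F K], K → Prop
  /-- the relation -/
  rl : ∀ (K : Type) [Field K] [Algebra F K], K → K → Prop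
  sp_spec : ∀ (K L : Type) [Field K] [Algebra F K] [Field L] [Algebra F L] (x : K) (x' : L),
    (∀ f : MvPolynomial Unit F, aeval (fun _ => x) f = 0 → aeval (fun _ => x') f = 0) →
      sp K x → sp L x'
  rl_spec : ∀ (K L : Type) [Field K] [Algebra F K] [Field L] [Algebra F L] (x y : K) (x' y' : L),
    (∀ f : MvPolynomial (Fin 2) F, aeval ![x, y] f = 0 → aeval ![x', y'] f = 0) →
      rl K x y → rl L x' y'

/-- the relation is an equivalence relation, and the special values are a union of classes -/
structure SS.Nice {F : Type} [Field F] (T : SS F) : Prop where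
  refl : ∀ (K : Type) [Field K] [Algebra F K] (x : K), T.rl K x x
  symm : ∀ (K : Type) [Field K] [Algebra F K] (x y : K), T.rl K x y → T.rl K y x
  trans : ∀ (K : Type) [Field K] [Algebra F K] (x y z : K), T.rl K x y → T.rl K y z → T.rl K x z
  closed : ∀ (K : Type) [Field K] [Algebra F K] (x y : K), T.rl K x y → T.sp K x → T.sp K y

section

variable {F : Type} [Field F] (T : SS F) {J J' : Type} [Fintype J] [Fintype J']
  {K L : Type} [Field K] [Field L] [Algebra F K] [Algebra F L]

/-- sets of non-special coordinates in different classes -/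
def SS.Ind (w : J → K) (s : Finset J) : Prop :=
  (∀ i ∈ s, ¬ T.sp K (w i)) ∧ ∀ i ∈ s, ∀ j ∈ s, i ≠ j → ¬ T.rl K (w i) (w j)

open Classical in
/-- the number of classes of the non-special coordinates -/
noncomputable def SS.kap (w : J → K) : ℕ :=
  ((Finset.univ : Finset (Finset J)).filter (fun s => T.Ind w s)).sup Finset.card

theorem SS.le_kap {w : J → K} {s : Finset J} (h : T.Ind w s) : s.card ≤ T.kap w := by
  classical
  exact Finset.le_sup (f := Finset.card) (Finset.mem_filter.2 ⟨Finset.mem_univ _, h⟩)

theorem SS.exists_kap (w : J → K) : ∃ s, T.Ind w s ∧ s.card = T.kap w := by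
  classical
  have hne : ((Finset.univ : Finset (Finset J)).filter (fun s => T.Ind w s)).Nonempty :=
    ⟨∅, Finset.mem_filter.2 ⟨Finset.mem_univ _, by simp, by simp⟩⟩
  obtain ⟨s, hs, h⟩ := Finset.exists_mem_eq_sup _ hne Finset.card
  exact ⟨s, (Finset.mem_filter.1 hs).2, h.symm⟩

theorem SS.kap_le {w : J → K} {n : ℕ} (h : ∀ s, T.Ind w s → s.card ≤ n) : T.kap w ≤ n := by
  obtain ⟨s, hs, hc⟩ := T.exists_kap w
  rw [← hc]
  exact h s hs

variable {T}

/-- specialisation of points -/
def Sp (F : Type) [Field F] [Algebra F K] [Algebra F L] (w : J → K) (w' : J → L) : Prop :=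
  ∀ f : MvPolynomial J F, aeval w f = 0 → aeval w' f = 0

theorem Sp.comp {w : J → K} {w' : J → L} (h : Sp F w w') (p : J' → J) :
    Sp F (fun j => w (p j)) (fun j => w' (p j)) := by
  intro f hf
  have h1 := h (rename p f) (by rw [aeval_rename]; exact hf)
  rw [aeval_rename] at h1
  exact h1

theorem Sp.sp {w : J → K} {w' : J → L} (h : Sp F w w') (i : J) (hi : T.sp K (w i)) :
    T.sp L (w' i) :=
  T.sp_spec K L _ _ (h.comp (fun _ : Unit => i)) hi

theorem Sp.rl {w : J → K} {w' : J → L} (h : Sp F w w') (i j : J) (hi : T.rl K (w i) (w j)) :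
    T.rl L (w' i) (w' j) := by
  refine T.rl_spec K L _ _ _ _ ?_ hi
  have h1 := h.comp (![i, j] : Fin 2 → J)
  have e1 : (fun k => w ((![i, j] : Fin 2 → J) k)) = ![w i, w j] := by
    funext k
    fin_cases k <;> rfl
  have e2 : (fun k => w' ((![i, j] : Fin 2 → J) k)) = ![w' i, w' j] := by
    funext k
    fin_cases k <;> rfl
  rw [e1, e2] at h1
  exact h1

theorem kap_mono {w : J → K} {w' : J → L} (h : Sp F w w') : T.kap w' ≤ T.kap w := by
  refine T.kap_le fun s hs => T.le_kap ⟨fun i hi h1 => hs.1 i hi (h.sp i h1),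
    fun i hi j hj hij h1 => hs.2 i hi j hj hij (h.rl i j h1)⟩

/-- the strong map property -/
theorem kap_strong (hT : T.Nice) {w : J → K} {w' : J → L} (h : Sp F w w') (p : J' → J) :
    T.kap w' + T.kap (fun j => w (p j)) ≤ T.kap w + T.kap (fun j => w' (p j)) := by
  classical
  obtain ⟨A, hA, hAc⟩ := T.exists_kap (fun j => w (p j))
  obtain ⟨B, hB, hBc⟩ := T.exists_kap w'
  let B₂ := B.filter fun b => ∀ j, ¬ T.rl L (w' b) (w' (p j))
  let B₁ := B.filter fun b => ¬ ∀ j, ¬ T.rl L (w' b) (w' (p j))
  have hBB : B₂.card + B₁.card = B.card := Finset.card_filter_add_card_filter_not _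
  -- the first part
  have hex : ∀ b ∈ B₁, ∃ j, T.rl L (w' b) (w' (p j)) := by
    intro b hb
    have := (Finset.mem_filter.1 hb).2
    push Not at this
    exact this
  have h1 : B₁.card ≤ T.kap (fun j => w' (p j)) := by
    rcases isEmpty_or_nonempty J' with he | hne
    · have h0 : B₁ = ∅ := by
        rw [Finset.eq_empty_iff_forall_notMem]
        intro b hb
        obtain ⟨j, -⟩ := hex b hb
        exact he.false j
      rw [h0]
      exact Nat.zero_le _
    choose! f hf using hex
    have hfinj : Set.InjOn f (B₁ : Set J) := by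
      intro b hb b' hb' he
      by_contra hne
      refine hB.2 b (Finset.mem_filter.1 hb).1 b' (Finset.mem_filter.1 hb').1 hne ?_
      have h1 := hf b hb
      have h2 := hf b' hb'
      rw [he] at h1
      exact hT.trans L _ _ _ h1 (hT.symm L _ _ h2)
    rw [← Finset.card_image_of_injOn hfinj]
    refine T.le_kap ⟨?_, ?_⟩
    · intro j hj hs
      obtain ⟨b, hb, rfl⟩ := Finset.mem_image.1 hj
      exact hB.1 b (Finset.mem_filter.1 hb).1 (hT.closed L _ _ (hT.symm L _ _ (hf b hb)) hs)
    · intro j hj j' hj' hne hr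
      obtain ⟨b, hb, rfl⟩ := Finset.mem_image.1 hj
      obtain ⟨b', hb', rfl⟩ := Finset.mem_image.1 hj'
      refine hB.2 b (Finset.mem_filter.1 hb).1 b' (Finset.mem_filter.1 hb').1 ?_ ?_
      · rintro rfl
        exact hne rfl
      · exact hT.trans L _ _ _ (hT.trans L _ _ _ (hf b hb) hr) (hT.symm L _ _ (hf b' hb'))
  -- the second part
  have hpinj : Set.InjOn p (A : Set J') := by
    intro a ha a' ha' he
    by_contra hne
    refine hA.2 a ha a' ha' hne ?_
    change T.rl K (w (p a)) (w (p a'))
    rw [he]
    exact hT.refl K _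
  have hdis : Disjoint (A.image p) B₂ := by
    rw [Finset.disjoint_left]
    intro x hx hx2
    obtain ⟨a, ha, rfl⟩ := Finset.mem_image.1 hx
    exact (Finset.mem_filter.1 hx2).2 a (hT.refl L _)
  have h2 : A.card + B₂.card ≤ T.kap w := by
    rw [← Finset.card_image_of_injOn hpinj, ← Finset.card_union_of_disjoint hdis]
    have hunrel : ∀ b ∈ B₂, ∀ j, ¬ T.rl K (w b) (w (p j)) := fun b hb j hr =>
      (Finset.mem_filter.1 hb).2 j (h.rl _ _ hr)
    refine T.le_kap ⟨?_, ?_⟩
    · intro x hx hs
      rcases Finset.mem_union.1 hx with hx | hx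
      · obtain ⟨a, ha, rfl⟩ := Finset.mem_image.1 hx
        exact hA.1 a ha hs
      · exact hB.1 x (Finset.mem_filter.1 hx).1 (h.sp x hs)
    · intro x hx y hy hne hr
      rcases Finset.mem_union.1 hx with hx | hx
      · obtain ⟨a, ha, rfl⟩ := Finset.mem_image.1 hx
        rcases Finset.mem_union.1 hy with hy | hy
        · obtain ⟨a', ha', rfl⟩ := Finset.mem_image.1 hy
          exact hA.2 a ha a' ha' (fun h => hne (by rw [h])) hr
        · exact hunrel y hy a (hT.symm K _ _ hr)
      · rcases Finset.mem_union.1 hy with hy | hy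
        · obtain ⟨a', ha', rfl⟩ := Finset.mem_image.1 hy
          exact hunrel x hx a' hr
        · exact hB.2 x (Finset.mem_filter.1 hx).1 y (Finset.mem_filter.1 hy).1 hne (h.rl x y hr)
  omega

theorem kap_eq {w : J → K} {w' : J → L} (h : Sp F w w') (h' : Sp F w' w) : T.kap w = T.kap w' :=
  le_antisymm (kap_mono h') (kap_mono h)

theorem kap_le_card (w : J → K) : T.kap w ≤ Fintype.card J :=
  T.kap_le fun s _ => Finset.card_le_univ s

/-- dropping special coordinates -/
theorem kap_drop (p : J' → J) (hp : Function.Injective p) (w : J → K)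
    (h : ∀ j, T.sp K (w j) ∨ ∃ j', p j' = j) : T.kap (fun j => w (p j)) = T.kap w := by
  classical
  apply le_antisymm
  · refine T.kap_le fun s hs => ?_
    rw [← Finset.card_image_of_injective s hp]
    refine T.le_kap ⟨?_, ?_⟩
    · intro x hx
      obtain ⟨a, ha, rfl⟩ := Finset.mem_image.1 hx
      exact hs.1 a ha
    · intro x hx y hy hne
      obtain ⟨a, ha, rfl⟩ := Finset.mem_image.1 hx
      obtain ⟨b, hb, rfl⟩ := Finset.mem_image.1 hy
      exact hs.2 a ha b hb fun h => hne (by rw [h])
  · refine T.kap_le fun s hs => ?_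
    have hex : ∀ j ∈ s, ∃ j', p j' = j := fun j hj => (h j).resolve_left (hs.1 j hj)
    have h1 : s = (Finset.univ.filter fun j' => p j' ∈ s).image p := by
      ext j
      simp only [Finset.mem_image, Finset.mem_filter, Finset.mem_univ, true_and]
      constructor
      · intro hj
        obtain ⟨j', rfl⟩ := hex j hj
        exact ⟨j', hj, rfl⟩
      · rintro ⟨j', hj', rfl⟩
        exact hj'
    rw [h1, Finset.card_image_of_injective _ hp]
    refine T.le_kap ⟨?_, ?_⟩
    · intro x hx
      exact hs.1 _ (Finset.mem_filter.1 hx).2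
    · intro x hx y hy hne
      exact hs.2 _ (Finset.mem_filter.1 hx).2 _ (Finset.mem_filter.1 hy).2 fun h => hne (hp h)

end

end Pool.Agent.L5helper23.MX
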