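import Pool.Agent.L5helper23.MX.Jsurj
import Pool.Agent.L5helper23.MX.Kap

/-!
# Isogenies: analytic and algebraic
-/

set_option autoImplicit false
set_option linter.unusedSectionVars false
set_option linter.style.haveILetI false

namespace Pool.Agent.L5helper23.MX

open UpperHalfPlane H294ZP MvPolynomial
open Pool.Agent.N135.ZO (M2 den_ne exists_rel)
open Pool.Agent.Y226 (ZZ ιZ ιZ_apply PsiE map_PsiE mP mD modular_spec)

theorem rel_adj {M : M2} {τ w : ℍ} (h : N135.ZO.Rel M τ w) : N135.ZO.Rel M.adjugate w τ := by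
  have h1 := h
  unfold N135.ZO.Rel N135.ZO.den N135.ZO.num at h1 ⊢
  rw [Matrix.adjugate_fin_two]
  simp only [Matrix.of_apply, Matrix.cons_val', Matrix.cons_val_zero, Matrix.cons_val_one,
    Matrix.cons_val_fin_one]
  push_cast
  linear_combination -h1

theorem det_adj (M : M2) : M.adjugate.det = M.det := by
  rw [Matrix.det_adjugate]
  simp

/-- CM points are preserved by isogenies -/
theorem isCM_of_rel {M : M2} (hM : 0 < M.det) {τ w : ℍ} (h : N135.ZO.Rel M τ w) (hτ : IsCM τ) :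
    IsCM w := by
  obtain ⟨A, B, C, hA, hABC⟩ := hτ
  have hK := H610.disc_pos τ A B C hA hABC
  rw [N135.ZO.det_eq] at hM
  unfold N135.ZO.Rel N135.ZO.den N135.ZO.num at h
  set a := M 0 0
  set b := M 0 1
  set c := M 1 0
  set d := M 1 1
  refine ⟨A * d ^ 2 - B * d * c + C * c ^ 2, -2 * A * b * d + B * (b * c + a * d) - 2 * C * a * c,
    A * b ^ 2 - B * a * b + C * a ^ 2, ?_, ?_⟩
  · intro h0
    have h1 : (2 * A * d - B * c) ^ 2 + (4 * A * C - B ^ 2) * c ^ 2 = 0 := by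
      linear_combination 4 * A * h0
    have h2 : 0 ≤ (2 * A * d - B * c) ^ 2 := sq_nonneg _
    have h3 : 0 ≤ (4 * A * C - B ^ 2) * c ^ 2 := mul_nonneg hK.le (sq_nonneg _)
    have h4 : (4 * A * C - B ^ 2) * c ^ 2 = 0 := by linarith
    have h5 : c = 0 := by
      rcases mul_eq_zero.1 h4 with h6 | h6
      · omega
      · exact pow_eq_zero_iff (two_ne_zero) |>.1 h6
    have h6 : (2 * A * d - B * c) ^ 2 = 0 := by linarith
    have h7 : 2 * A * d - B * c = 0 := pow_eq_zero_iff (two_ne_zero) |>.1 h6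
    rw [h5, mul_zero, sub_zero] at h7
    have h8 : d = 0 := by
      rcases mul_eq_zero.1 h7 with h9 | h9
      · omega
      · exact h9
    rw [h5, h8] at hM
    simp at hM
  · have hd : (c : ℂ) * w - a ≠ 0 := by
      intro h0
      have h1 : ((b * c - a * d : ℤ) : ℂ) = 0 := by
        push_cast
        linear_combination (c : ℂ) * (-1 : ℂ) * h + ((c : ℂ) * τ + d) * h0
      have h2 : b * c - a * d = 0 := by exact_mod_cast h1
      omega
    have h1 : (τ : ℂ) * (c * w - a) = b - d * w := by linear_combination h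
    push_cast
    have h2 : ((A : ℂ) * (τ : ℂ) ^ 2 + B * τ + C) * ((c : ℂ) * w - a) ^ 2 = 0 := by
      rw [hABC, zero_mul]
    linear_combination h2 - (A : ℂ) * ((τ : ℂ) * (c * w - a) + (b - d * w)) * h1 -
      (B : ℂ) * (c * w - a) * h1

/-- the modular equation over the complex numbers -/
theorem psi_of_rel {N : ℕ} (hN : 0 < N) {M : M2} (hM : M.det = N) {τ w : ℍ} (h : N135.ZO.Rel M τ w) :
    PsiE ιZ (mP N) (mD N) (jj τ) (jj w) = 0 := by
  obtain ⟨-, -, -, -, -, -, -, -, -, -, h5⟩ := modular_spec N hN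
  exact h5 τ w (M 0 0) (M 0 1) (M 1 0) (M 1 1) (by rw [← N135.ZO.det_eq, hM]) h

/-- finitely many matrices -/
theorem exists_reps (N : ℕ) (hN : 0 < N) : ∃ (ι : Type) (_ : Fintype ι) (g : ι → M2),
    (∀ k, (g k).det = N) ∧ ∀ (τ : ℍ) (y : ℂ), PsiE ιZ (mP N) (mD N) (jj τ) y = 0 →
      ∃ (k : ι) (w : ℍ), N135.ZO.Rel (g k) τ w ∧ jj w = y := by
  obtain ⟨ι, _, α, δ, β, h, h1, h2, -, h4, -⟩ := modular_spec N hN
  refine ⟨ι, inferInstance, fun k => !![(α k : ℤ), β k; 0, (δ k : ℤ)], fun k => ?_,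
    fun τ y hy => ?_⟩
  · rw [Matrix.det_fin_two_of, mul_zero, sub_zero]
    exact_mod_cast (h1 k).2.2
  · rw [← h4] at hy
    obtain ⟨k, -, hk⟩ := Finset.prod_eq_zero_iff.1 hy
    refine ⟨k, h k τ, ?_, (sub_eq_zero.1 hk).symm⟩
    have := h2 k τ
    simp only [N135.ZO.Rel, N135.ZO.den, N135.ZO.num, Matrix.of_apply, Matrix.cons_val', Matrix.cons_val_zero,
      Matrix.cons_val_one, Matrix.cons_val_fin_one]
    push_cast
    rw [← this]
    ring

theorem psi_rel {N : ℕ} (hN : 0 < N) {τ : ℍ} {y : ℂ} (h : PsiE ιZ (mP N) (mD N) (jj τ) y = 0) :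
    ∃ (M : M2) (w : ℍ), M.det = N ∧ N135.ZO.Rel M τ w ∧ jj w = y := by
  obtain ⟨ι, _, g, h1, h2⟩ := exists_reps N hN
  obtain ⟨k, w, h3, h4⟩ := h2 τ y h
  exact ⟨g k, w, h1 k, h3, h4⟩

theorem psi_refl (x : ℂ) : PsiE ιZ (mP 1) (mD 1) x x = 0 := by
  obtain ⟨τ, rfl⟩ := exists_jj x
  exact psi_of_rel one_pos (M := 1) (by simp) (N135.ZO.rel_one τ)

theorem psi_symm {N : ℕ} (hN : 0 < N) {x y : ℂ} (h : PsiE ιZ (mP N) (mD N) x y = 0) :
    PsiE ιZ (mP N) (mD N) y x = 0 := by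
  obtain ⟨τ, rfl⟩ := exists_jj x
  obtain ⟨M, w, hM, hr, rfl⟩ := psi_rel hN h
  exact psi_of_rel hN (by rw [det_adj, hM]) (rel_adj hr)

theorem psi_trans {N N' : ℕ} (hN : 0 < N) (hN' : 0 < N') {x y z : ℂ}
    (h : PsiE ιZ (mP N) (mD N) x y = 0) (h' : PsiE ιZ (mP N') (mD N') y z = 0) :
    PsiE ιZ (mP (N' * N)) (mD (N' * N)) x z = 0 := by
  obtain ⟨τ, rfl⟩ := exists_jj x
  obtain ⟨M, w, hM, hr, rfl⟩ := psi_rel hN h
  obtain ⟨M', w', hM', hr', rfl⟩ := psi_rel hN' h'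
  refine psi_of_rel (Nat.mul_pos hN' hN) (M := M' * M) ?_ (hr.mul hr')
  rw [Matrix.det_mul, hM, hM']
  push_cast
  rfl

theorem psi_cm {N : ℕ} (hN : 0 < N) {τ : ℍ} (hτ : IsCM τ) {y : ℂ}
    (h : PsiE ιZ (mP N) (mD N) (jj τ) y = 0) : ∃ w : ℍ, IsCM w ∧ jj w = y := by
  obtain ⟨M, w, hM, hr, h1⟩ := psi_rel hN h
  refine ⟨w, isCM_of_rel ?_ hr hτ, h1⟩
  rw [hM]
  exact_mod_cast hN

end Pool.Agent.L5helper23.MX
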